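import Mathlib

-- part MP_dfa28f_co.Prob
section

set_option autoImplicit false

open Finset

namespace Pool.Agent.MP_dfa28f_co

section general

variable {Ω : Type*} [Fintype Ω]

open Classical in
/-- Uniform probability of an event on a finite type. -/
noncomputable def pr (p : Ω → Prop) : ℝ := ((univ.filter p).card : ℝ) / Fintype.card Ω

lemma pr_eq (p : Ω → Prop) [DecidablePred p] :
    pr p = ((univ.filter p).card : ℝ) / Fintype.card Ω := by
  unfold pr
  rw [filter_congr_decidable]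

lemma pr_nonneg (p : Ω → Prop) : 0 ≤ pr p := by unfold pr; positivity

lemma pr_mono {p q : Ω → Prop} (h : ∀ ω, p ω → q ω) : pr p ≤ pr q := by
  classical
  unfold pr
  gcongr with ω
  exact h ω

lemma pr_congr {p q : Ω → Prop} (h : ∀ ω, p ω ↔ q ω) : pr p = pr q :=
  le_antisymm (pr_mono fun ω => (h ω).1) (pr_mono fun ω => (h ω).2)

lemma pr_exists_le {ι : Type*} (s : Finset ι) (p : ι → Ω → Prop) :
    pr (fun ω => ∃ i ∈ s, p i ω) ≤ ∑ i ∈ s, pr (p i) := by
  classical
  simp only [pr_eq]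
  rw [← sum_div]
  refine div_le_div_of_nonneg_right ?_ (by positivity)
  have : (univ.filter fun ω => ∃ i ∈ s, p i ω) ⊆ s.biUnion fun i => univ.filter (p i) := by
    intro ω hω
    simpa using hω
  have h2 := (card_le_card this).trans card_biUnion_le
  have h3 : (((univ.filter fun ω => ∃ i ∈ s, p i ω).card : ℕ) : ℝ) ≤
    ((∑ i ∈ s, (univ.filter (p i)).card : ℕ) : ℝ) := by exact_mod_cast h2
  rw [Nat.cast_sum] at h3
  exact h3

lemma pr_or_le (p q : Ω → Prop) : pr (fun ω => p ω ∨ q ω) ≤ pr p + pr q := by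
  have := pr_exists_le (univ : Finset Bool) (fun b ω => if b then p ω else q ω)
  simpa [or_comm, add_comm] using this

lemma pr_not [Nonempty Ω] (p : Ω → Prop) : pr (fun ω => ¬ p ω) = 1 - pr p := by
  classical
  rw [pr_eq, pr_eq]
  have h := card_filter_add_card_filter_not (s := (univ : Finset Ω)) p
  have h0 : (0 : ℝ) < Fintype.card Ω := by exact_mod_cast Fintype.card_pos
  rw [card_univ] at h
  have h' : ((univ.filter p).card : ℝ) + (univ.filter fun ω => ¬ p ω).card = Fintype.card Ω := by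
    exact_mod_cast h
  rw [eq_sub_iff_add_eq, ← add_div, div_eq_one_iff_eq h0.ne', add_comm]
  exact h'

lemma exists_not_of_pr_lt_one [Nonempty Ω] {p : Ω → Prop} (h : pr p < 1) : ∃ ω, ¬ p ω := by
  classical
  by_contra hno
  push Not at hno
  have h0 : (0 : ℝ) < Fintype.card Ω := by exact_mod_cast Fintype.card_pos
  rw [pr_eq, filter_true_of_mem fun ω _ => hno ω, card_univ, div_self h0.ne'] at h
  exact lt_irrefl _ h

lemma pr_true [Nonempty Ω] : pr (fun _ : Ω => True) = 1 := by
  have h0 : (0 : ℝ) < Fintype.card Ω := by exact_mod_cast Fintype.card_pos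
  rw [pr_eq, filter_true_of_mem fun ω _ => trivial, card_univ, div_self h0.ne']

end general

section product

variable {E T : Type*} [Fintype E] [DecidableEq E] [Fintype T] [Nonempty T]

lemma pr_cyl (D : Finset E) (A : E → Finset T) :
    pr (fun ω : E → T => ∀ e ∈ D, ω e ∈ A e) = ∏ e ∈ D, ((A e).card : ℝ) / Fintype.card T := by
  classical
  have h0 : (Fintype.card T : ℝ) ≠ 0 := by exact_mod_cast Fintype.card_ne_zero
  rw [pr_eq]
  have : (univ.filter fun ω : E → T => ∀ e ∈ D, ω e ∈ A e) =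
      Fintype.piFinset fun e => if e ∈ D then A e else univ := by
    ext ω
    simp only [mem_filter, mem_univ, true_and, Fintype.mem_piFinset]
    refine forall_congr' fun e => ?_
    split_ifs with h <;> simp [h]
  have h1 : ((univ.filter fun ω : E → T => ∀ e ∈ D, ω e ∈ A e).card : ℝ) =
      ∏ e, ((if e ∈ D then A e else univ).card : ℝ) := by
    rw [this, Fintype.card_piFinset, Nat.cast_prod]
  have h2 : (Fintype.card (E → T) : ℝ) = ∏ _e : E, (Fintype.card T : ℝ) := by
    simp
  have h3 : ∏ e ∈ D, ((A e).card : ℝ) / Fintype.card T =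
      ∏ e, (if e ∈ D then ((A e).card : ℝ) / Fintype.card T else 1) := by
    rw [← prod_filter]
    simp
  rw [h3, h2, h1, ← prod_div_distrib]
  refine prod_congr rfl fun e _ => ?_
  split_ifs <;> simp [h0]

lemma pr_and_indep (D : Finset E) (p q : (E → T) → Prop)
    (hp : ∀ ω ω', (∀ e ∈ D, ω e = ω' e) → p ω → p ω')
    (hq : ∀ ω ω', (∀ e, e ∉ D → ω e = ω' e) → q ω → q ω') :
    pr (fun ω => p ω ∧ q ω) = pr p * pr q := by
  classical
  have h0 : (Fintype.card (E → T) : ℝ) ≠ 0 := by exact_mod_cast Fintype.card_ne_zero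
  have key : (univ.filter fun ω => p ω ∧ q ω).card * Fintype.card (E → T) =
      (univ.filter p).card * (univ.filter q).card := by
    rw [← card_univ, ← card_product, ← card_product]
    refine card_nbij' (fun x => (D.piecewise x.1 x.2, D.piecewise x.2 x.1))
      (fun x => (D.piecewise x.1 x.2, D.piecewise x.2 x.1)) ?_ ?_ ?_ ?_
    · rintro ⟨a, b⟩ h
      simp only [coe_product, coe_filter, mem_univ, true_and, Set.mem_prod, Set.mem_ofPred_eq,
        coe_univ, Set.mem_univ, and_true] at h ⊢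
      exact ⟨hp a _ (fun e he => by simp [he]) h.1, hq a _ (fun e he => by simp [he]) h.2⟩
    · rintro ⟨a, b⟩ h
      simp only [coe_product, coe_filter, mem_univ, true_and, Set.mem_prod, Set.mem_ofPred_eq,
        coe_univ, Set.mem_univ, and_true] at h ⊢
      exact ⟨hp a _ (fun e he => by simp [he]) h.1, hq b _ (fun e he => by simp [he]) h.2⟩
    · rintro ⟨a, b⟩ _
      ext e <;> by_cases he : e ∈ D <;> simp [he]
    · rintro ⟨a, b⟩ _
      ext e <;> by_cases he : e ∈ D <;> simp [he]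
  have key' : ((univ.filter fun ω => p ω ∧ q ω).card : ℝ) * Fintype.card (E → T) =
      (univ.filter p).card * (univ.filter q).card := by exact_mod_cast key
  rw [pr_eq, pr_eq, pr_eq]
  field_simp
  exact key'

lemma pr_forall_not {β : Type*} (B : Finset β) (D : β → Finset E) (p : β → (E → T) → Prop)
    (q : ℝ) (hD : ∀ b ∈ B, ∀ b' ∈ B, b ≠ b' → Disjoint (D b) (D b'))
    (hp : ∀ b ∈ B, ∀ ω ω', (∀ e ∈ D b, ω e = ω' e) → p b ω → p b ω')
    (hq : ∀ b ∈ B, q ≤ pr (p b)) :
    pr (fun ω => ∀ b ∈ B, ¬ p b ω) ≤ (1 - q) ^ B.card := by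
  classical
  induction B using Finset.induction_on with
  | empty => simp [pr_true]
  | insert a B ha ih =>
    have h1 := ih (fun b hb b' hb' => hD b (mem_insert_of_mem hb) b' (mem_insert_of_mem hb'))
      (fun b hb => hp b (mem_insert_of_mem hb)) (fun b hb => hq b (mem_insert_of_mem hb))
    rw [card_insert_of_notMem ha, pow_succ',
      pr_congr (q := fun ω => ¬ p a ω ∧ ∀ b ∈ B, ¬ p b ω) (fun ω => forall_mem_insert _ _ _),
      pr_and_indep (D a), pr_not]
    · have h2 := hq a (mem_insert_self _ _)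
      have h3 : 0 ≤ 1 - pr (p a) := by rw [← pr_not]; exact pr_nonneg _
      exact mul_le_mul (by linarith) h1 (pr_nonneg _) (by linarith)
    · intro ω ω' h hn hh
      exact hn (hp a (mem_insert_self _ _) ω' ω (fun e he => (h e he).symm) hh)
    · intro ω ω' h hn b hb hh
      refine hn b hb (hp b (mem_insert_of_mem hb) ω' ω (fun e he => (h e ?_).symm) hh)
      exact disjoint_left.1 (hD b (mem_insert_of_mem hb) a (mem_insert_self _ _)
        (fun hba => ha (hba ▸ hb))) he

end product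

end Pool.Agent.MP_dfa28f_co

end

-- part MP_dfa28f_co.Chain
section

set_option autoImplicit false

open Finset

namespace Pool.Agent.MP_dfa28f_co

variable {V : Type} [Fintype V] [DecidableEq V] {m : ℕ}

/-- Sparse random relation. -/
def S0 (R : V → V → Prop) (ω : Sym2 V → Fin m × Bool) (u v : V) : Prop :=
  R u v ∧ (ω s(u, v)).1.val = 0

/-- A copy of the complement of the six vertex path. -/
def Copy (R : V → V → Prop) (ω : Sym2 V → Fin m × Bool) (f : Fin 6 → V) : Prop :=
  Function.Injective f ∧ ∀ i j : Fin 6, i.val + 2 ≤ j.val → S0 R ω (f i) (f j)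

/-- Pairs lying in a copy. -/
def Del (R : V → V → Prop) (ω : Sym2 V → Fin m × Bool) (u v : V) : Prop :=
  ∃ (f : Fin 6 → V) (a b : Fin 6), Copy R ω f ∧ (a.val + 2 ≤ b.val ∨ b.val + 2 ≤ a.val) ∧
    f a = u ∧ f b = v

/-- Edges of the complement of the six vertex path. -/
def fe : Finset (Fin 6 × Fin 6) := univ.filter fun p => p.1.val + 2 ≤ p.2.val

lemma fe_count : ∀ W : Finset (Fin 6), W.Nonempty →
    (W.card ≤ 4 → 2 * W.card + 1 ≤ (fe.filter fun p => p.1 ∈ W ∨ p.2 ∈ W).card) ∧
    (W.card = 5 → 10 ≤ (fe.filter fun p => p.1 ∈ W ∨ p.2 ∈ W).card) := by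
  decide +kernel

/-- The edges added in one step. -/
def newE (s s' : V) (f : Fin 6 → V) (a : Fin 6) : Finset (Sym2 V) :=
  fe.image (fun p => s(f p.1, f p.2)) ∪ {s(f a, s), s(f a, s')}

omit [Fintype V] in
lemma card_new {s s' : V} (hss : s ≠ s') {U : Finset V} {E : Finset (Sym2 V)} (hs : s ∈ U)
    (hs' : s' ∈ U) (hE : ∀ e ∈ E, ∀ v ∈ e, v ∈ U) {f : Fin 6 → V} (hf : Function.Injective f)
    {a b : Fin 6} (ha : f a ∉ U) (hb : f b = s ∨ f b = s') :
    E.card + (2 * (univ.filter fun i => f i ∉ U).card + 1) ≤ (E ∪ newE s s' f a).card := by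
  set W := univ.filter fun i => f i ∉ U with hW
  have hbU : f b ∈ U := by rcases hb with h | h <;> rw [h] <;> assumption
  have haW : a ∈ W := by simp [hW, ha]
  have hbW : b ∉ W := by simp [hW, hbU]
  set N := (fe.filter fun p => p.1 ∈ W ∨ p.2 ∈ W).image (fun p => s(f p.1, f p.2)) with hN
  have hNc : N.card = (fe.filter fun p => p.1 ∈ W ∨ p.2 ∈ W).card := by
    apply card_image_of_injOn
    intro p hp q hq h
    simp only [fe, coe_filter, mem_filter, mem_univ, true_and, Set.mem_ofPred_eq] at hp hq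
    rcases Sym2.eq_iff.1 h with h | h
    · exact Prod.ext (hf h.1) (hf h.2)
    · have h1 := congrArg Fin.val (hf h.1)
      have h2 := congrArg Fin.val (hf h.2)
      omega
  have hW5 : W.card ≤ 5 := by
    have : W ⊆ univ.erase b := fun i hi => mem_erase.2 ⟨fun h => hbW (h ▸ hi), mem_univ _⟩
    simpa using card_le_card this
  have hdisj : Disjoint E (N ∪ {s(f a, s), s(f a, s')}) := by
    rw [disjoint_left]
    intro e he hN'
    simp only [hN, mem_union, mem_image, mem_filter, mem_insert, mem_singleton, hW, mem_univ,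
      true_and] at hN'
    rcases hN' with ⟨p, ⟨-, hp⟩, rfl⟩ | rfl | rfl
    · rcases hp with hp | hp
      · exact hp (hE _ he _ (Sym2.mem_mk_left _ _))
      · exact hp (hE _ he _ (Sym2.mem_mk_right _ _))
    · exact ha (hE _ he _ (Sym2.mem_mk_left _ _))
    · exact ha (hE _ he _ (Sym2.mem_mk_left _ _))
  have hsub : E ∪ (N ∪ {s(f a, s), s(f a, s')}) ⊆ E ∪ newE s s' f a :=
    union_subset_union_right (union_subset_union_left (image_subset_image (filter_subset _ _)))
  refine le_trans ?_ (card_le_card hsub)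
  rw [card_union_of_disjoint hdisj]
  gcongr
  obtain ⟨c1, c2⟩ := fe_count W ⟨a, haW⟩
  by_cases h4 : W.card ≤ 4
  · exact ((c1 h4).trans hNc.ge).trans (card_le_card subset_union_left)
  · have h5 : W.card = 5 := by omega
    have hWe : W = univ.erase b := by
      apply eq_of_subset_of_card_le
      · exact fun i hi => mem_erase.2 ⟨fun h => hbW (h ▸ hi), mem_univ _⟩
      · simp [h5]
    obtain ⟨c, hc, hcU, hcb⟩ : ∃ c, (c = s ∨ c = s') ∧ c ∈ U ∧ f b ≠ c := by
      rcases hb with h | h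
      · exact ⟨s', Or.inr rfl, hs', h ▸ hss⟩
      · exact ⟨s, Or.inl rfl, hs, h ▸ hss.symm⟩
    have hcf : ∀ i, f i ≠ c := by
      intro i hi
      by_cases hib : i = b
      · exact hcb (hib ▸ hi)
      · have : i ∈ W := by rw [hWe]; simp [hib]
        simp only [hW, mem_filter, mem_univ, true_and] at this
        exact this (hi ▸ hcU)
    have hnot : s(f a, c) ∉ N := by
      intro h
      simp only [hN, mem_image] at h
      obtain ⟨p, -, hp⟩ := h
      rcases Sym2.eq_iff.1 hp with h | h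
      · exact hcf _ h.2
      · exact hcf _ h.1
    have : insert s(f a, c) N ⊆ N ∪ {s(f a, s), s(f a, s')} := by
      apply insert_subset _ subset_union_left
      rcases hc with rfl | rfl <;> simp
    have h2 := card_le_card this
    rw [card_insert_of_notMem hnot, hNc] at h2
    have := c2 h5
    omega

lemma sum_ext {s s' : V} {U : Finset V} (hs : s ∈ U) (hs' : s' ∈ U) {x : ℝ} (hx : 0 ≤ x) :
    ∑ y ∈ (univ : Finset ((Fin 6 → V) × Fin 6)) with (∃ b, y.1 b = s ∨ y.1 b = s'),
      x ^ (univ.filter fun i => y.1 i ∉ U).card ≤ 72 * (U.card + Fintype.card V * x) ^ 5 := by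
  set g : V → ℝ := fun v => if v ∈ U then 1 else x with hg
  have hg0 : ∀ v, 0 ≤ g v := fun v => by simp only [hg]; split_ifs <;> positivity
  have hprod : ∀ f : Fin 6 → V, x ^ (univ.filter fun i => f i ∉ U).card = ∏ i, g (f i) := by
    intro f
    simp only [hg]
    rw [prod_ite, prod_const_one, one_mul, prod_const]
  have hG : ∑ v, g v ≤ U.card + Fintype.card V * x := by
    calc ∑ v, g v ≤ ∑ v, ((if v ∈ U then 1 else 0) + x) :=
          sum_le_sum fun v _ => by simp only [hg]; split_ifs <;> linarith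
      _ = _ := by simp [sum_add_distrib]
  set t : Fin 6 → Fin 6 → Finset V := fun b i => if i = b then {s, s'} else univ with ht
  have h1 : ∀ b, ∑ f ∈ Fintype.piFinset (t b), ∏ i, g (f i) ≤
      2 * (U.card + Fintype.card V * x) ^ 5 := by
    intro b
    rw [← prod_univ_sum (t b) (fun _ v => g v), ← mul_prod_erase _ _ (mem_univ b)]
    have e1 : ∑ v ∈ t b b, g v ≤ 2 := by
      simp only [ht, if_true]
      by_cases h : s = s'
      · subst h; simp [hg, hs]
      · rw [sum_pair h]; simp only [hg, hs, hs', if_true]; norm_num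
    have e2 : ∏ i ∈ univ.erase b, ∑ v ∈ t b i, g v = (∑ v, g v) ^ 5 := by
      rw [prod_congr rfl (g := fun _ => ∑ v, g v), prod_const]
      · simp
      · intro i hi
        simp only [ht, if_neg (mem_erase.1 hi).1]
    rw [e2]
    have : 0 ≤ ∑ v, g v := sum_nonneg fun v _ => hg0 v
    gcongr
  calc _ ≤ ∑ y ∈ (univ : Finset ((Fin 6 → V) × Fin 6)),
        ∑ b, (if y.1 ∈ Fintype.piFinset (t b) then ∏ i, g (y.1 i) else 0) := by
        rw [sum_filter]
        refine sum_le_sum fun y _ => ?_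
        have hn : ∀ b ∈ (univ : Finset (Fin 6)),
            0 ≤ (if y.1 ∈ Fintype.piFinset (t b) then ∏ i, g (y.1 i) else 0) := by
          intro b _
          split_ifs
          · exact prod_nonneg fun i _ => hg0 _
          · exact le_rfl
        split_ifs with h
        · obtain ⟨b, hb⟩ := h
          refine le_trans ?_ (single_le_sum hn (mem_univ b))
          rw [if_pos, hprod]
          rw [Fintype.mem_piFinset]
          intro i
          simp only [ht]
          split_ifs with hi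
          · subst hi; simpa using hb
          · exact mem_univ _
        · exact sum_nonneg hn
    _ = ∑ _a : Fin 6, ∑ b, ∑ f ∈ Fintype.piFinset (t b), ∏ i, g (f i) := by
        rw [Fintype.sum_prod_type_right]
        refine sum_congr rfl fun a _ => ?_
        rw [sum_comm]
        refine sum_congr rfl fun b _ => ?_
        simp only [← sum_filter, filter_mem_eq_inter, univ_inter]
    _ ≤ ∑ _a : Fin 6, ∑ _b : Fin 6, 2 * (U.card + Fintype.card V * x) ^ 5 :=
        sum_le_sum fun _ _ => sum_le_sum fun b _ => h1 b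
    _ = _ := by simp; ring

open Classical in
/-- Common neighbours of `s` and `s'` that lose an edge. -/
noncomputable def badSet (R : V → V → Prop) (ω : Sym2 V → Fin m × Bool) (s s' : V) : Finset V :=
  univ.filter fun r => S0 R ω r s ∧ S0 R ω r s' ∧ (Del R ω r s ∨ Del R ω r s')

lemma chain (R : V → V → Prop) (hm : 1 ≤ m) {s s' : V} (hss : s ≠ s') (t : ℕ) (ht : t ≤ 6) :
    ∃ (ι : Type) (I : Finset ι) (U : ι → Finset V) (E : ι → Finset (Sym2 V)),
      (∀ x ∈ I, s ∈ U x ∧ s' ∈ U x ∧ (U x).card ≤ 2 + 5 * t ∧ ∀ e ∈ E x, ∀ v ∈ e, v ∈ U x) ∧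
      ∑ x ∈ I, (1 / m : ℝ) ^ (E x).card ≤
        (72 * (32 + Fintype.card V * (1 / m : ℝ) ^ 2) ^ 5 * (1 / m)) ^ t ∧
      ∀ ω : Sym2 V → Fin m × Bool, 28 ≤ (badSet R ω s s').card →
        ∃ x ∈ I, ∀ e ∈ E x, (ω e).1.val = 0 := by
  classical
  induction t with
  | zero =>
    refine ⟨Unit, univ, fun _ => {s, s'}, fun _ => ∅, fun _ _ => ⟨by simp, by simp, ?_, by simp⟩,
      by simp, fun ω _ => ⟨(), mem_univ _, by simp⟩⟩
    exact card_le_two
  | succ t ih =>
    obtain ⟨ι, I, U, E, h1, h2, h3⟩ := ih (by omega)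
    have hm0 : (0 : ℝ) < m := by exact_mod_cast hm
    have hm1 : (1 / m : ℝ) ≤ 1 := by rw [div_le_one hm0]; exact_mod_cast hm
    refine ⟨ι × ((Fin 6 → V) × Fin 6), (I ×ˢ univ).filter fun z => Function.Injective z.2.1 ∧
      z.2.1 z.2.2 ∉ U z.1 ∧ ∃ b, z.2.1 b = s ∨ z.2.1 b = s',
      fun z => U z.1 ∪ univ.image z.2.1, fun z => E z.1 ∪ newE s s' z.2.1 z.2.2, ?_, ?_, ?_⟩
    · rintro ⟨x, f, a⟩ hz
      simp only [mem_filter, mem_product, mem_univ, and_true] at hz
      obtain ⟨hx, hf, ha, b, hb⟩ := hz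
      obtain ⟨a1, a2, a3, a4⟩ := h1 x hx
      refine ⟨mem_union_left _ a1, mem_union_left _ a2, ?_, ?_⟩
      · have hbU : f b ∈ U x := by rcases hb with h | h <;> rw [h] <;> assumption
        have : U x ∪ univ.image f ⊆ U x ∪ (univ.erase b).image f := by
          intro v hv
          rcases mem_union.1 hv with h | h
          · exact mem_union_left _ h
          · obtain ⟨i, -, rfl⟩ := mem_image.1 h
            by_cases hi : i = b
            · exact mem_union_left _ (hi ▸ hbU)
            · exact mem_union_right _ (mem_image_of_mem _ (by simp [hi]))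
        have h5 : ((univ.erase b).image f).card ≤ 5 := card_image_le.trans (by simp)
        have := (card_le_card this).trans (card_union_le _ _)
        simp only
        omega
      · intro e he v hv
        simp only [newE, mem_union, mem_image, mem_insert, mem_singleton] at he
        rcases he with he | ⟨p, -, rfl⟩ | rfl | rfl
        · exact mem_union_left _ (a4 e he v hv)
        · rcases Sym2.mem_iff.1 hv with rfl | rfl <;>
            exact mem_union_right _ (mem_image_of_mem _ (mem_univ _))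
        · rcases Sym2.mem_iff.1 hv with rfl | rfl
          · exact mem_union_right _ (mem_image_of_mem _ (mem_univ _))
          · exact mem_union_left _ a1
        · rcases Sym2.mem_iff.1 hv with rfl | rfl
          · exact mem_union_right _ (mem_image_of_mem _ (mem_univ _))
          · exact mem_union_left _ a2
    · rw [sum_filter, sum_product, pow_succ]
      refine le_trans ?_ (mul_le_mul_of_nonneg_right h2 (by positivity))
      rw [sum_mul]
      refine sum_le_sum fun x hx => ?_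
      obtain ⟨a1, a2, a3, a4⟩ := h1 x hx
      have hs := sum_ext a1 a2 (x := (1 / m : ℝ) ^ 2) (by positivity)
      calc _ ≤ ∑ y ∈ (univ : Finset ((Fin 6 → V) × Fin 6)) with (∃ b, y.1 b = s ∨ y.1 b = s'),
            (1 / m : ℝ) ^ (E x).card * (((1 / m : ℝ) ^ 2) ^ (univ.filter fun i => y.1 i ∉ U x).card
              * (1 / m)) := by
            rw [sum_filter]
            refine sum_le_sum fun y _ => ?_
            split_ifs with c1 c2 c2
            · obtain ⟨hf, ha, b, hb⟩ := c1
              rw [← pow_mul, ← pow_succ, ← pow_add]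
              exact pow_le_pow_of_le_one (by positivity) hm1 (card_new hss a1 a2 a4 hf ha hb)
            · exact absurd c1.2.2 c2
            · positivity
            · exact le_rfl
        _ ≤ _ := by
            rw [← mul_sum, ← sum_mul]
            have : ((U x).card : ℝ) ≤ 32 := by exact_mod_cast (by omega : (U x).card ≤ 32)
            gcongr
            refine hs.trans ?_
            gcongr
    · intro ω hω
      obtain ⟨x, hx, hE⟩ := h3 ω hω
      obtain ⟨a1, a2, a3, a4⟩ := h1 x hx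
      obtain ⟨r, hr, hrU⟩ := exists_mem_notMem_of_card_lt_card
        (show (U x).card < (badSet R ω s s').card by omega)
      simp only [badSet, mem_filter, mem_univ, true_and] at hr
      obtain ⟨b1, b2, b3⟩ := hr
      obtain ⟨f, a, b, hc, hfa, hfb⟩ : ∃ (f : Fin 6 → V) (a b : Fin 6), Copy R ω f ∧ f a = r ∧
          (f b = s ∨ f b = s') := by
        rcases b3 with ⟨f, a, b, hc, -, e1, e2⟩ | ⟨f, a, b, hc, -, e1, e2⟩
        · exact ⟨f, a, b, hc, e1, Or.inl e2⟩
        · exact ⟨f, a, b, hc, e1, Or.inr e2⟩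
      refine ⟨(x, f, a), ?_, ?_⟩
      · simp only [mem_filter, mem_product, mem_univ, and_true]
        exact ⟨hx, hc.1, hfa ▸ hrU, b, hfb⟩
      · intro e he
        simp only [newE, mem_union, mem_image, mem_insert, mem_singleton, fe, mem_filter, mem_univ,
          true_and] at he
        rcases he with he | ⟨p, hp, rfl⟩ | rfl | rfl
        · exact hE e he
        · exact (hc.2 _ _ hp).2
        · rw [hfa]; exact b1.2
        · rw [hfa]; exact b2.2

lemma card_zero (hm : 1 ≤ m) :
    (((univ : Finset (Fin m × Bool)).filter fun t => t.1.val = 0).card : ℝ) /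
      Fintype.card (Fin m × Bool) = 1 / m := by
  have : ((univ : Finset (Fin m × Bool)).filter fun t => t.1.val = 0) =
      ({⟨0, hm⟩} : Finset (Fin m)) ×ˢ univ := by
    ext ⟨a, b⟩
    cases b <;> simp [Fin.ext_iff]
  have hm0 : (m : ℝ) ≠ 0 := by exact_mod_cast (by omega : m ≠ 0)
  rw [this]
  simp
  field_simp

lemma pr_bad (R : V → V → Prop) (hm : 1 ≤ m) {s s' : V} (hss : s ≠ s') :
    pr (fun ω : Sym2 V → Fin m × Bool => 28 ≤ (badSet R ω s s').card) ≤
      (72 * (32 + Fintype.card V * (1 / m : ℝ) ^ 2) ^ 5 * (1 / m)) ^ 6 := by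
  have : Nonempty (Fin m × Bool) := ⟨(⟨0, hm⟩, true)⟩
  obtain ⟨ι, I, U, E, -, h2, h3⟩ := chain R hm hss 6 le_rfl
  refine ((pr_mono h3).trans (pr_exists_le I _)).trans (le_trans (le_of_eq ?_) h2)
  refine sum_congr rfl fun x _ => ?_
  rw [pr_congr (q := fun ω => ∀ e ∈ E x, ω e ∈ (univ : Finset (Fin m × Bool)).filter
    fun t => t.1.val = 0) (by simp), pr_cyl (E x) (fun _ => _), prod_const, card_zero hm]

end Pool.Agent.MP_dfa28f_co

end

-- part MP_dfa28f_co.Exists
section

set_option autoImplicit false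

open Finset Filter Topology

namespace Pool.Agent.MP_dfa28f_co

lemma pr_cyl_inj {E T W : Type*} [Fintype E] [DecidableEq E] [Fintype T] [Nonempty T]
    (S : Finset W) (φ : W → E) (hφ : Set.InjOn φ S) (A : W → Finset T) :
    pr (fun ω : E → T => ∀ w ∈ S, ω (φ w) ∈ A w) =
      ∏ w ∈ S, ((A w).card : ℝ) / Fintype.card T := by
  classical
  let A' : E → Finset T := fun e => if h : ∃ w ∈ S, φ w = e then A h.choose else univ
  have hA : ∀ w ∈ S, A' (φ w) = A w := by
    intro w hw
    have h : ∃ w' ∈ S, φ w' = φ w := ⟨w, hw, rfl⟩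
    simp only [A', dif_pos h]
    rw [hφ h.choose_spec.1 hw h.choose_spec.2]
  rw [pr_congr (q := fun ω => ∀ e ∈ S.image φ, ω e ∈ A' e), pr_cyl, prod_image hφ]
  · exact prod_congr rfl fun w hw => by rw [hA w hw]
  · intro ω
    rw [forall_mem_image]
    exact forall₂_congr fun w hw => by rw [hA w hw]

variable {P : Type} [Fintype P] [DecidableEq P] (sp : P → P → Prop) [DecidableRel sp] {m n : ℕ}

/-- Vertex set. -/
abbrev Vt (P : Type) (n : ℕ) : Type := P × (Fin 33 × Fin n)

/-- The values required on the pair formed by a candidate and the vertex `w`. -/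
def req (m : ℕ) (j : P) (r w : Vt P n) : Finset (Fin m × Bool) :=
  if w = r then univ.filter fun t => t.1.val ≠ 0 ∧ t.2 = false
  else if sp j w.1 then univ.filter fun t => t.1.val = 0 else univ.filter fun t => t.2 = true

/-- Candidate escape vertices. -/
def Cand (ω : Sym2 (Vt P n) → Fin m × Bool) (S : Finset (Vt P n)) (r r' : Vt P n) : Prop :=
  ∀ w ∈ insert r S, ω s(r', w) ∈ req sp m r'.1 r w

omit [Fintype P] in
lemma req_card (hm : 2 ≤ m) (j : P) (r w : Vt P n) :
    (if w ≠ r ∧ sp j w.1 then (1 / m : ℝ) else 1) * (1 / 4) ≤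
      ((req sp m j r w).card : ℝ) / Fintype.card (Fin m × Bool) := by
  have hm0 : (0 : ℝ) < m := by exact_mod_cast (by omega : 0 < m)
  have hm2 : (2 : ℝ) ≤ m := by exact_mod_cast hm
  unfold req
  by_cases h1 : w = r
  · rw [if_neg (by simp [h1]), if_pos h1]
    have : ((univ : Finset (Fin m × Bool)).filter fun t => t.1.val ≠ 0 ∧ t.2 = false) =
        (univ.erase (⟨0, by omega⟩ : Fin m)) ×ˢ {false} := by
      ext ⟨a, b⟩
      cases b <;> simp [Fin.ext_iff]
    rw [this, card_product, card_erase_of_mem (mem_univ _)]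
    simp only [card_univ, Fintype.card_fin, card_singleton, mul_one, Fintype.card_prod,
      Fintype.card_bool, one_mul]
    rw [Nat.cast_sub (by omega), le_div_iff₀ (by positivity)]
    push_cast
    linarith
  · rw [if_neg h1]
    by_cases h2 : sp j w.1
    · rw [if_pos ⟨h1, h2⟩, if_pos h2, card_zero (by omega)]
      have : (0 : ℝ) < 1 / m := by positivity
      linarith
    · rw [if_neg (fun h => h2 h.2), if_neg h2]
      have : ((univ : Finset (Fin m × Bool)).filter fun t => t.2 = true) = univ ×ˢ {true} := by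
        ext ⟨a, b⟩
        cases b <;> simp
      rw [this, card_product]
      simp only [card_univ, Fintype.card_fin, card_singleton, mul_one, Fintype.card_prod,
        Fintype.card_bool, one_mul]
      rw [le_div_iff₀ (by positivity)]
      push_cast
      linarith

lemma pr_cand (hm : 2 ≤ m) {K : ℕ} (S : Finset (Vt P n)) (r r' : Vt P n) (hS : S.card ≤ K)
    (h2 : (S.filter fun w => sp r'.1 w.1).card ≤ 2) :
    (1 / m : ℝ) ^ 2 * (1 / 4) ^ (K + 1) ≤
      pr (fun ω : Sym2 (Vt P n) → Fin m × Bool => Cand sp ω S r r') := by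
  have : Nonempty (Fin m × Bool) := ⟨(⟨0, by omega⟩, true)⟩
  have hm0 : (0 : ℝ) < m := by exact_mod_cast (by omega : 0 < m)
  have hm1 : (1 / m : ℝ) ≤ 1 := by rw [div_le_one hm0]; exact_mod_cast (by omega : 1 ≤ m)
  unfold Cand
  rw [pr_cyl_inj (insert r S) (fun w => s(r', w)) (fun a _ b _ h => Sym2.congr_right.1 h)]
  refine le_trans ?_ (prod_le_prod (fun w _ => by split_ifs <;> positivity)
    fun w _ => req_card sp hm r'.1 r w)
  rw [prod_mul_distrib, prod_ite, prod_const_one, mul_one, prod_const, prod_const]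
  have c1 : ((insert r S).filter fun w => w ≠ r ∧ sp r'.1 w.1).card ≤ 2 := by
    refine le_trans (card_le_card fun w hw => ?_) h2
    simp only [mem_filter, mem_insert] at hw ⊢
    exact ⟨hw.1.resolve_left hw.2.1, hw.2.2⟩
  have c2 : (insert r S).card ≤ K + 1 := (card_insert_le _ _).trans (by omega)
  exact mul_le_mul (pow_le_pow_of_le_one (by positivity) hm1 c1)
    (pow_le_pow_of_le_one (by positivity) (by norm_num) c2) (by positivity) (by positivity)

lemma pr_no_cand (hm : 2 ≤ m) {K : ℕ} (j : P) (β : Fin 33) (S : Finset (Vt P n)) (r : Vt P n)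
    (hS : S.card ≤ K) (h2 : (S.filter fun w => sp j w.1).card ≤ 2) (hj : ∀ w ∈ S, w.1 ≠ j) :
    pr (fun ω : Sym2 (Vt P n) → Fin m × Bool => ∀ i : Fin n, ¬ Cand sp ω S r (j, β, i)) ≤
      (1 - (1 / m : ℝ) ^ 2 * (1 / 4) ^ (K + 1)) ^ n := by
  have : Nonempty (Fin m × Bool) := ⟨(⟨0, by omega⟩, true)⟩
  have := pr_forall_not (univ : Finset (Fin n))
    (fun i => (insert r S).image fun w => s(((j, β, i) : Vt P n), w))
    (fun i (ω : Sym2 (Vt P n) → Fin m × Bool) => Cand sp ω S r (j, β, i))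
    ((1 / m : ℝ) ^ 2 * (1 / 4) ^ (K + 1)) ?_ ?_ (fun i _ => pr_cand sp hm S r _ hS h2)
  · simpa using this
  · intro i _ i' _ hii
    rw [disjoint_left]
    intro e he he'
    obtain ⟨w, hw, rfl⟩ := mem_image.1 he
    obtain ⟨w', hw', h⟩ := mem_image.1 he'
    rcases Sym2.eq_iff.1 h with h | h
    · exact hii (by simpa using h.1.symm)
    · have e1 : w = r := (mem_insert.1 hw).resolve_right fun h' => hj w h' (by rw [← h.1])
      have e2 : w' = r := (mem_insert.1 hw').resolve_right fun h' => hj w' h' (by rw [h.2])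
      have := h.1.trans (e1.trans (e2.symm.trans h.2))
      exact hii (by simpa using this.symm)
  · intro i _ ω ω' h hc w hw
    rw [← h _ (mem_image_of_mem _ hw)]
    exact hc w hw

lemma card_small (α : Type*) [Fintype α] [DecidableEq α] [Nonempty α] (K : ℕ) :
    ((univ : Finset (Finset α)).filter fun S => S.card ≤ K).card ≤
      (K + 1) * Fintype.card α ^ K := by
  have : ((univ : Finset (Finset α)).filter fun S => S.card ≤ K) ⊆
      (range (K + 1)).biUnion fun k => powersetCard k univ := by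
    intro S hS
    simp only [mem_filter, mem_univ, true_and] at hS
    simp only [mem_biUnion, mem_range, mem_powersetCard, subset_univ, true_and]
    exact ⟨S.card, by omega, rfl⟩
  refine ((card_le_card this).trans card_biUnion_le).trans ?_
  refine (sum_le_card_nsmul _ _ (Fintype.card α ^ K) fun k hk => ?_).trans (by simp)
  rw [card_powersetCard, card_univ]
  exact (Nat.choose_le_pow _ _).trans
    (Nat.pow_le_pow_right Fintype.card_pos (by rw [mem_range] at hk; omega))

lemma exists_param (p K : ℕ) (hp : 1 ≤ p) : ∃ u : ℕ, 2 ≤ u ∧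
    (p * 33 * ((K + 1) * (p * (33 * u ^ 41)) ^ K) * (p * (33 * u ^ 41)) : ℝ) *
      (1 - (1 / (u ^ 20 : ℝ)) ^ 2 * (1 / 4) ^ (K + 1)) ^ (u ^ 41) < 1 / 2 ∧
    (p * (33 * u ^ 41) : ℝ) ^ 2 *
      (72 * (32 + (p * (33 * u ^ 41)) * (1 / (u ^ 20 : ℝ)) ^ 2) ^ 5 * (1 / u ^ 20)) ^ 6 < 1 / 2 := by
  set c : ℝ := (1 / 4) ^ (K + 1) with hc
  have hc0 : 0 < c := by positivity
  have hc1 : c ≤ 1 := pow_le_one₀ (by norm_num) (by norm_num)
  set a := 41 * (K + 1) with ha
  set C₁ : ℝ := p * 33 * (K + 1) * (p * 33) ^ (K + 1) / c ^ a with hC₁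
  set C₂ : ℝ := (p * 33) ^ 2 * (72 * (65 * p) ^ 5) ^ 6 with hC₂
  have t1 : Tendsto (fun u : ℕ => C₁ * ((c * u) ^ a * Real.exp (-(c * u)))) atTop (𝓝 (C₁ * 0)) :=
    ((Real.tendsto_pow_mul_exp_neg_atTop_nhds_zero a).comp
      (tendsto_natCast_atTop_atTop.const_mul_atTop hc0)).const_mul C₁
  have t2 : Tendsto (fun u : ℕ => C₂ / u) atTop (𝓝 0) := tendsto_const_div_atTop_nhds_zero_nat C₂
  rw [mul_zero] at t1
  obtain ⟨u, hu, h1, h2⟩ := ((eventually_ge_atTop 2).and
    ((t1.eventually (gt_mem_nhds (show (0 : ℝ) < 1 / 2 by norm_num))).and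
    (t2.eventually (gt_mem_nhds (show (0 : ℝ) < 1 / 2 by norm_num))))).exists
  have hu2 : (2 : ℝ) ≤ u := by exact_mod_cast hu
  have hu0 : (0 : ℝ) < u := by linarith
  have hp1 : (1 : ℝ) ≤ p := by exact_mod_cast hp
  refine ⟨u, hu, lt_of_le_of_lt ?_ h1, lt_of_le_of_lt ?_ h2⟩
  · have e1 : (1 - (1 / (u ^ 20 : ℝ)) ^ 2 * c) ^ (u ^ 41) ≤ Real.exp (-(c * u)) := by
      have b1 : (1 / (u ^ 20 : ℝ)) ^ 2 ≤ 1 := pow_le_one₀ (by positivity) (by
        rw [div_le_one (by positivity)]; exact one_le_pow₀ (by linarith))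
      calc _ ≤ (Real.exp (-((1 / (u ^ 20 : ℝ)) ^ 2 * c))) ^ (u ^ 41) := by
            gcongr
            · nlinarith
            · exact Real.one_sub_le_exp_neg _
        _ = _ := by
            rw [← Real.exp_nat_mul]
            congr 1
            push_cast
            field_simp
    calc _ ≤ (p * 33 * ((K + 1) * (p * (33 * u ^ 41)) ^ K) * (p * (33 * u ^ 41)) : ℝ) *
          Real.exp (-(c * u)) := by gcongr
      _ = _ := by
          rw [hC₁, mul_pow c, ha, pow_mul (u : ℝ), ← mul_assoc (p : ℝ) 33, mul_pow]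
          field_simp
          ring
  · have e1 : 32 + (p * (33 * u ^ 41)) * (1 / (u ^ 20 : ℝ)) ^ 2 ≤ 65 * p * u := by
      have : (p * (33 * u ^ 41)) * (1 / (u ^ 20 : ℝ)) ^ 2 = 33 * p * u := by field_simp
      rw [this]
      nlinarith
    calc _ ≤ (p * (33 * u ^ 41) : ℝ) ^ 2 * (72 * (65 * p * u) ^ 5 * (1 / u ^ 20)) ^ 6 := by gcongr
      _ = C₂ / u ^ 8 := by rw [hC₂]; field_simp
      _ ≤ C₂ / u := by
          gcongr
          exact le_self_pow₀ (by linarith) (by norm_num)

theorem exists_omega_of [Nonempty P] (K : ℕ) (hm : 2 ≤ m) (hn : 1 ≤ n)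
    (h1 : (Fintype.card P * 33 * ((K + 1) * (Fintype.card P * (33 * n)) ^ K) *
      (Fintype.card P * (33 * n)) : ℝ) * (1 - (1 / (m : ℝ)) ^ 2 * (1 / 4) ^ (K + 1)) ^ n < 1 / 2)
    (h2 : (Fintype.card P * (33 * n) : ℝ) ^ 2 *
      (72 * (32 + (Fintype.card P * (33 * n)) * (1 / (m : ℝ)) ^ 2) ^ 5 * (1 / m)) ^ 6 < 1 / 2) :
    ∃ ω : Sym2 (Vt P n) → Fin m × Bool,
    (∀ (j : P) (β : Fin 33) (S : Finset (Vt P n)) (r : Vt P n), S.card ≤ K →
      (S.filter fun w => sp j w.1).card ≤ 2 → (∀ w ∈ S, w.1 ≠ j) →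
      ∃ i : Fin n, Cand sp ω S r (j, β, i)) ∧
    ∀ s s' : Vt P n, s ≠ s' → (badSet (fun u v => sp u.1 v.1) ω s s').card < 28 := by
  classical
  have : Nonempty (Fin m × Bool) := ⟨(⟨0, by omega⟩, true)⟩
  have : Nonempty (Vt P n) := ⟨(Classical.arbitrary P, 0, ⟨0, hn⟩)⟩
  have hN : Fintype.card (Vt P n) = Fintype.card P * (33 * n) := by simp
  have hm0 : (0 : ℝ) < m := by exact_mod_cast (by omega : 0 < m)
  obtain ⟨Cfg, hCfg, c1⟩ : ∃ Cfg : Finset (((P × Fin 33) × Finset (Vt P n)) × Vt P n),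
      (∀ c, c ∈ Cfg ↔ c.1.2.card ≤ K ∧ (c.1.2.filter fun w => sp c.1.1.1 w.1).card ≤ 2 ∧
        ∀ w ∈ c.1.2, w.1 ≠ c.1.1.1) ∧
      (Cfg.card : ℝ) ≤ (Fintype.card P * 33 * ((K + 1) * (Fintype.card P *
        (33 * n)) ^ K) * (Fintype.card P * (33 * n)) : ℝ) := by
    refine ⟨((univ ×ˢ univ.filter fun S => S.card ≤ K) ×ˢ univ).filter
      fun c => (c.1.2.filter fun w => sp c.1.1.1 w.1).card ≤ 2 ∧ ∀ w ∈ c.1.2, w.1 ≠ c.1.1.1,
      fun c => by simp only [mem_filter, mem_product, mem_univ, true_and, and_true], ?_⟩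
    refine (Nat.cast_le.2 (card_filter_le _ _)).trans ?_
    have := card_small (Vt P n) K
    rw [card_product, card_product, card_univ, card_univ, Fintype.card_prod,
      Fintype.card_fin, hN]
    rw [hN] at this
    exact_mod_cast Nat.mul_le_mul_right _ (Nat.mul_le_mul_left _ this)
  have hq : 0 ≤ 1 - (1 / (m : ℝ)) ^ 2 * (1 / 4) ^ (K + 1) := by
    have a1 : (1 / (m : ℝ)) ^ 2 ≤ 1 := pow_le_one₀ (by positivity) (by
      rw [div_le_one hm0]; exact_mod_cast (by omega : 1 ≤ m))
    have a2 : ((1 : ℝ) / 4) ^ (K + 1) ≤ 1 := pow_le_one₀ (by norm_num) (by norm_num)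
    nlinarith
  have b1 : pr (fun ω : Sym2 (Vt P n) → Fin m × Bool => ∃ c ∈ Cfg,
      ∀ i : Fin n, ¬ Cand sp ω c.1.2 c.2 (c.1.1.1, c.1.1.2, i)) < 1 / 2 := by
    refine lt_of_le_of_lt ((pr_exists_le _ _).trans ?_) h1
    refine (sum_le_card_nsmul _ _ ((1 - (1 / (m : ℝ)) ^ 2 * (1 / 4) ^ (K + 1)) ^ n)
      fun c hc => ?_).trans ?_
    · rw [hCfg] at hc
      exact pr_no_cand sp hm _ _ _ _ hc.1 hc.2.1 hc.2.2
    · rw [nsmul_eq_mul]
      exact mul_le_mul_of_nonneg_right c1 (pow_nonneg hq _)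
  have b2 : pr (fun ω : Sym2 (Vt P n) → Fin m × Bool =>
      ∃ c ∈ (univ : Finset (Vt P n × Vt P n)).filter fun c => c.1 ≠ c.2,
      28 ≤ (badSet (fun u v => sp u.1 v.1) ω c.1 c.2).card) < 1 / 2 := by
    refine lt_of_le_of_lt ((pr_exists_le _ _).trans ?_) h2
    refine (sum_le_card_nsmul _ _ ((72 * (32 + Fintype.card (Vt P n) * (1 / m : ℝ) ^ 2) ^ 5 *
      (1 / m)) ^ 6) fun c hc => ?_).trans ?_
    · have hc' : c.1 ≠ c.2 := (mem_filter.1 hc).2
      exact pr_bad (V := Vt P n) (m := m) (fun u v => sp u.1 v.1) (by omega) hc'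
    · rw [nsmul_eq_mul, hN]
      push_cast
      refine mul_le_mul_of_nonneg_right ?_ (by positivity)
      refine (Nat.cast_le.2 (card_filter_le _ _)).trans (le_of_eq ?_)
      rw [card_univ, Fintype.card_prod, hN]
      push_cast
      ring
  obtain ⟨ω, hω⟩ := exists_not_of_pr_lt_one
    ((pr_or_le _ _).trans_lt ((add_lt_add b1 b2).trans_eq (by norm_num)))
  rw [not_or] at hω
  refine ⟨ω, fun j β S r a1 a2 a3 => ?_, fun s s' hss => ?_⟩
  · by_contra hno
    push Not at hno
    exact hω.1 ⟨(((j, β), S), r), (hCfg _).2 ⟨a1, a2, a3⟩, hno⟩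
  · by_contra hno
    push Not at hno
    exact hω.2 ⟨(s, s'), mem_filter.2 ⟨mem_univ _, hss⟩, hno⟩

theorem exists_omega [Nonempty P] (K : ℕ) : ∃ (m n : ℕ) (ω : Sym2 (Vt P n) → Fin m × Bool),
    1 ≤ n ∧ (∀ (j : P) (β : Fin 33) (S : Finset (Vt P n)) (r : Vt P n), S.card ≤ K →
      (S.filter fun w => sp j w.1).card ≤ 2 → (∀ w ∈ S, w.1 ≠ j) →
      ∃ i : Fin n, Cand sp ω S r (j, β, i)) ∧
    ∀ s s' : Vt P n, s ≠ s' → (badSet (fun u v => sp u.1 v.1) ω s s').card < 28 := by
  obtain ⟨u, hu, h1, h2⟩ := exists_param (Fintype.card P) K Fintype.card_pos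
  have hm : 2 ≤ u ^ 20 := hu.trans (Nat.le_self_pow (by norm_num) _)
  have hn : 1 ≤ u ^ 41 := Nat.one_le_pow _ _ (by omega)
  obtain ⟨ω, hω⟩ := exists_omega_of sp K hm hn (by exact_mod_cast h1) (by exact_mod_cast h2)
  exact ⟨_, _, ω, hn, hω⟩

end Pool.Agent.MP_dfa28f_co

end
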