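import Pool.Agent.MP_dfa28f_co.Mg.Exists
import Pool.Prelude.Def_F_8db9d53c

set_option autoImplicit false

open Finset

namespace Pool.Agent.MP_dfa28f_co

theorem exists_rel {P : Type} [Fintype P] [DecidableEq P] [Nonempty P] (sp : P → P → Prop)
    [DecidableRel sp] (hsym : ∀ p q, sp p q → sp q p) (hirr : ∀ p, ¬ sp p p) (K : ℕ) :
    ∃ (V : Type) (_ : Fintype V) (_ : DecidableEq V) (π : V → P) (H : V → V → Prop),
      Function.Surjective π ∧ (∀ u v, H u v → H v u) ∧ (∀ u v, H u v → π u ≠ π v) ∧
      (∀ f : Fin 6 → V, Function.Injective f →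
        ¬ ∀ i j : Fin 6, i.val + 2 ≤ j.val → H (f i) (f j) ∧ sp (π (f i)) (π (f j))) ∧
      ∀ (j : P) (S : Finset V) (r : V), S.card ≤ K → (S.filter fun w => sp j (π w)).card ≤ 2 →
        (∀ w ∈ S, π w ≠ j) → r ∉ S → ∃ r', π r' = j ∧ (∀ s ∈ S, H r' s) ∧ ¬ H r' r := by
  obtain ⟨m, n, ω, hn, h1, h2⟩ := exists_omega sp (K + 1)
  set R : Vt P n → Vt P n → Prop := fun u v => sp u.1 v.1 with hR
  have hS0 : ∀ u v, S0 R ω u v → S0 R ω v u := fun u v h =>
    ⟨hsym _ _ h.1, by rw [Sym2.eq_swap]; exact h.2⟩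
  have hDel : ∀ u v, Del R ω u v → Del R ω v u := by
    rintro u v ⟨f, a, b, hc, hab, e1, e2⟩
    exact ⟨f, b, a, hc, hab.symm, e2, e1⟩
  have hnot : ∀ (S : Finset (Vt P n)) (r r' : Vt P n), Cand sp ω S r r' →
      ¬ ((S0 R ω r' r ∧ ¬ Del R ω r' r) ∨
        (r'.1 ≠ r.1 ∧ ¬ sp r'.1 r.1 ∧ (ω s(r', r)).2 = true)) := by
    intro S r r' hc
    have := hc r (mem_insert_self _ _)
    simp only [req, if_true, mem_filter, mem_univ, true_and] at this
    rintro (h | h)
    · exact this.1 h.1.2
    · rw [this.2] at h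
      exact absurd h.2.2 (by simp)
  have hsp : ∀ (S : Finset (Vt P n)) (r r' w : Vt P n), Cand sp ω S r r' → w ∈ S → w ≠ r →
      sp r'.1 w.1 → S0 R ω r' w := by
    intro S r r' w hc hw hwr hs
    have := hc w (mem_insert_of_mem hw)
    simp only [req, if_neg hwr, if_pos hs, mem_filter, mem_univ, true_and] at this
    exact ⟨hs, this⟩
  have hde : ∀ (S : Finset (Vt P n)) (r r' w : Vt P n), Cand sp ω S r r' → w ∈ S → w ≠ r →
      ¬ sp r'.1 w.1 → (ω s(r', w)).2 = true := by
    intro S r r' w hc hw hwr hs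
    have := hc w (mem_insert_of_mem hw)
    simpa only [req, if_neg hwr, if_neg hs, mem_filter, mem_univ, true_and] using this
  refine ⟨Vt P n, inferInstance, inferInstance, Prod.fst, fun u v => (S0 R ω u v ∧ ¬ Del R ω u v) ∨
    (u.1 ≠ v.1 ∧ ¬ sp u.1 v.1 ∧ (ω s(u, v)).2 = true), fun p => ⟨(p, 0, ⟨0, hn⟩), rfl⟩,
    ?_, ?_, ?_, ?_⟩
  · rintro u v (h | h)
    · exact Or.inl ⟨hS0 _ _ h.1, fun h' => h.2 (hDel _ _ h')⟩
    · exact Or.inr ⟨h.1.symm, fun h' => h.2.1 (hsym _ _ h'), by rw [Sym2.eq_swap]; exact h.2.2⟩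
  · rintro u v (h | h)
    · intro e
      have : sp u.1 v.1 := h.1.1
      rw [e] at this
      exact hirr _ this
    · exact h.1
  · intro f hf h
    have hc : Copy R ω f := ⟨hf, fun i j hij =>
      ((h i j hij).1.resolve_right fun h' => h'.2.1 (h i j hij).2).1⟩
    have := (h 0 2 (by decide)).1.resolve_right fun h' => h'.2.1 (h 0 2 (by decide)).2
    exact this.2 ⟨f, 0, 2, hc, by decide, rfl, rfl⟩
  · intro j S r hK hS2 hj hr
    have hwr : ∀ w ∈ S, w ≠ r := fun w hw e => hr (e ▸ hw)
    by_cases hex : ∃ s ∈ S, sp j s.1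
    · obtain ⟨s, hs, hjs⟩ := hex
      obtain ⟨s', hss, hsr, hjs', hall⟩ : ∃ s', s ≠ s' ∧ s' ≠ r ∧ sp j s'.1 ∧
          ∀ w ∈ S, sp j w.1 → w = s ∨ w = s' := by
        by_cases hex2 : ∃ w ∈ S, sp j w.1 ∧ w ≠ s
        · obtain ⟨w, hw, hjw, hws⟩ := hex2
          refine ⟨w, hws.symm, hwr w hw, hjw, fun x hx hjx => ?_⟩
          by_contra hne
          push Not at hne
          have : ({x, s, w} : Finset (Vt P n)) ⊆ S.filter fun w => sp j w.1 := by
            intro y hy
            simp only [mem_insert, mem_singleton] at hy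
            rcases hy with rfl | rfl | rfl <;> simp [*]
          have h3 := card_le_card this
          rw [card_eq_three.2 ⟨x, s, w, hne.1, hne.2, hws.symm, rfl⟩] at h3
          omega
        · push Not at hex2
          obtain ⟨β, -, hβ⟩ := exists_mem_notMem_of_card_lt_card
            (s := ({s.2.1, r.2.1} : Finset (Fin 33))) (t := univ)
            (card_le_two.trans_lt (by simp))
          simp only [mem_insert, mem_singleton, not_or] at hβ
          refine ⟨(s.1, β, s.2.2), fun e => hβ.1 (by rw [e]), fun e => hβ.2 (by rw [← e]), hjs,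
            fun w hw hjw => Or.inl (hex2 w hw hjw)⟩
      have hfil : ((insert s' S).filter fun w => sp j w.1).card ≤ 2 := by
        refine le_trans (card_le_card (t := {s, s'}) fun w hw => ?_) card_le_two
        simp only [mem_filter, mem_insert, mem_singleton] at hw ⊢
        rcases hw.1 with h | h
        · exact Or.inr h
        · exact hall w h hw.2
      choose i hi using fun β => h1 j β (insert s' S) r ((card_insert_le _ _).trans (by omega)) hfil
        (by
          intro w hw
          rcases mem_insert.1 hw with rfl | hw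
          · intro e
            rw [e] at hjs'
            exact hirr _ hjs'
          · exact hj w hw)
      have hcard : (univ.image fun β => ((j, β, i β) : Vt P n)).card = 33 := by
        rw [card_image_of_injective _ fun a b h => by simpa using (congrArg (·.2.1) h)]
        simp
      obtain ⟨r', hr', hbad⟩ := exists_mem_notMem_of_card_lt_card
        (show (badSet R ω s s').card < (univ.image fun β => ((j, β, i β) : Vt P n)).card by
          have := h2 s s' hss
          omega)
      obtain ⟨β, -, rfl⟩ := mem_image.1 hr'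
      have c1 := hsp _ _ _ s (hi β) (mem_insert_of_mem hs) (hwr s hs) hjs
      have c2 := hsp _ _ _ s' (hi β) (mem_insert_self _ _) hsr hjs'
      simp only [badSet, mem_filter, mem_univ, true_and, c1, c2, not_or] at hbad
      refine ⟨_, rfl, fun w hw => ?_, hnot _ _ _ (hi β)⟩
      by_cases hw' : sp j w.1
      · rcases hall w hw hw' with rfl | rfl
        · exact Or.inl ⟨c1, hbad.1⟩
        · exact Or.inl ⟨c2, hbad.2⟩
      · exact Or.inr ⟨(hj w hw).symm, hw',
          hde _ _ _ w (hi β) (mem_insert_of_mem hw) (hwr w hw) hw'⟩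
    · push Not at hex
      obtain ⟨i, hi⟩ := h1 j 0 S r (by omega) hS2 hj
      exact ⟨_, rfl, fun w hw => Or.inr ⟨(hj w hw).symm, hex w hw,
        hde _ _ _ w hi hw (hwr w hw) (hex w hw)⟩, hnot _ _ _ hi⟩

/-- Cliques: `b` groups of three and `d` single ones. -/
abbrev Part (b d : ℕ) : Type := (Fin b × Fin 3) ⊕ Fin d

/-- The group of a clique. -/
def grp {b d : ℕ} : Part b d → Fin b ⊕ Fin d := Sum.map Prod.fst id

lemma exists_free {b d : ℕ} {V : Type} [DecidableEq V] (π : V → Part b d) (S : Finset V)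
    (hS : S.card < 3 * b + d) : ∃ j, (∀ w ∈ S, π w ≠ j) ∧
      (S.filter fun w => j ≠ π w ∧ grp j = grp (π w)).card ≤ 2 := by
  by_contra hno
  push Not at hno
  have h1 := card_eq_sum_card_fiberwise (s := S) (t := univ) (f := fun w => grp (π w))
    (fun _ _ => mem_univ _)
  rw [Fintype.sum_sum_type] at h1
  have h2 : ∀ a : Fin b, 3 ≤ (S.filter fun w => grp (π w) = Sum.inl a).card := by
    intro a
    by_cases hall : ∀ c : Fin 3, ∃ w ∈ S, π w = Sum.inl (a, c)
    · choose g hg hg' using hall
      have := card_le_card_of_injOn (s := (univ : Finset (Fin 3)))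
        (t := S.filter fun w => grp (π w) = Sum.inl a) g
        (fun c _ => mem_coe.2 (mem_filter.2 ⟨hg c, by rw [hg' c]; rfl⟩))
        (fun c _ c' _ e => by
          have := (hg' c).symm.trans (e ▸ hg' c')
          simpa using this)
      simpa using this
    · push Not at hall
      obtain ⟨c, hc⟩ := hall
      refine le_trans (hno _ hc) (card_le_card fun w hw => ?_)
      simp only [mem_filter] at hw ⊢
      exact ⟨hw.1, hw.2.2.symm⟩
  have h3 : ∀ x : Fin d, 1 ≤ (S.filter fun w => grp (π w) = Sum.inr x).card := by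
    intro x
    by_cases hall : ∃ w ∈ S, π w = Sum.inr x
    · obtain ⟨w, hw, hw'⟩ := hall
      exact card_pos.2 ⟨w, mem_filter.2 ⟨hw, by rw [hw']; rfl⟩⟩
    · push Not at hall
      refine le_trans (le_trans (by norm_num) (hno _ hall)) (card_le_card fun w hw => ?_)
      simp only [mem_filter] at hw ⊢
      exact ⟨hw.1, hw.2.2.symm⟩
  have h4 := card_nsmul_le_sum univ _ 3 fun a _ => h2 a
  have h5 := card_nsmul_le_sum univ _ 1 fun x _ => h3 x
  simp only [card_univ, Fintype.card_fin, smul_eq_mul] at h4 h5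
  omega

lemma far_apart {k l : ℕ} (e : Fin l ↪o Fin k) {i j : Fin l} (h : i.val + 2 ≤ j.val) :
    (e i).val + 2 ≤ (e j).val := by
  have h1 : e i < e ⟨i.val + 1, by omega⟩ := e.strictMono (by rw [Fin.lt_def]; simp)
  have h2 : e ⟨i.val + 1, by omega⟩ < e j := e.strictMono (by rw [Fin.lt_def]; simp; omega)
  rw [Fin.lt_def] at h1 h2
  omega

open N6ef48c04 in
theorem exists_graph (b d k : ℕ) (hb : 1 ≤ b) (hk : 5 * b + 2 * d < k) :
    ∃ (V : Type) (_ : Finite V) (G : SimpleGraph V), G.Connected ∧
      ¬ (SimpleGraph.pathGraph k).IsIndContained G ∧ 3 * b + d ≤ copNumber G := by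
  have : Nonempty (Part b d) := ⟨Sum.inl (⟨0, hb⟩, 0)⟩
  obtain ⟨V, _, _, π, H, hπ, hsym, hne, hcopy, hext⟩ := exists_rel (P := Part b d)
    (fun p q => p ≠ q ∧ grp p = grp q) (fun p q h => ⟨h.1.symm, h.2.symm⟩)
    (fun p h => h.1 rfl) (3 * b + d)
  let G : SimpleGraph V :=
    { Adj := fun u v => u ≠ v ∧ ¬ H u v
      symm := ⟨fun u v h => ⟨h.1.symm, fun h' => h.2 (hsym _ _ h')⟩⟩
      loopless := ⟨fun u h => h.1 rfl⟩ }
  have hstep : ∀ u v, ¬ H u v → Step G u v := fun u v h => by
    by_cases e : u = v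
    · exact Or.inl e
    · exact Or.inr ⟨e, h⟩
  have hreach : ∀ u v, ¬ H u v → G.Reachable u v := fun u v h => by
    rcases hstep u v h with rfl | h
    · exact SimpleGraph.Reachable.refl _
    · exact h.reachable
  have hV : Nonempty V := hπ.nonempty
  refine ⟨V, inferInstance, G, ⟨fun u v => ?_⟩, ?_, ?_⟩
  · obtain ⟨r', e, -, h⟩ := hext (π v) ∅ u (by simp) (by simp) (by simp) (by simp)
    exact (hreach _ _ h).symm.trans (hreach _ _ fun h' => hne _ _ h' e)
  · rintro ⟨f⟩
    have hfar : ∀ i j : Fin k, i.val + 2 ≤ j.val → H (f i) (f j) := by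
      intro i j hij
      by_contra h
      have : G.Adj (f i) (f j) := ⟨fun e => by have := congrArg Fin.val (f.injective e); omega, h⟩
      rw [f.map_adj_iff, SimpleGraph.pathGraph_adj] at this
      omega
    have h1 := card_eq_sum_card_fiberwise (s := (univ : Finset (Fin k))) (t := univ)
      (f := fun i => grp (π (f i))) (fun _ _ => mem_univ _)
    rw [Fintype.sum_sum_type] at h1
    have h2 : ∀ a : Fin b, (univ.filter fun i => grp (π (f i)) = Sum.inl a).card ≤ 5 := by
      intro a
      by_contra h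
      set e := orderEmbOfCardLe _ (show 6 ≤ _ from not_le.1 h) with he
      have hm : ∀ i, grp (π (f (e i))) = Sum.inl a := fun i =>
        (mem_filter.1 (orderEmbOfCardLe_mem _ (show 6 ≤ _ from not_le.1 h) i)).2
      refine hcopy (fun i => f (e i)) (f.injective.comp e.injective) fun i j hij => ?_
      have := hfar _ _ (far_apart e hij)
      exact ⟨this, hne _ _ this, (hm i).trans (hm j).symm⟩
    have h3 : ∀ x : Fin d, (univ.filter fun i => grp (π (f i)) = Sum.inr x).card ≤ 2 := by
      intro x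
      by_contra h
      set e := orderEmbOfCardLe _ (show 3 ≤ _ from not_le.1 h) with he
      have hm : ∀ i, π (f (e i)) = Sum.inr x := fun i => by
        have := (mem_filter.1 (orderEmbOfCardLe_mem _ (show 3 ≤ _ from not_le.1 h) i)).2
        revert this
        rw [← he]
        cases π (f (e i)) <;> simp [grp]
      exact hne _ _ (hfar _ _ (far_apart e (i := 0) (j := 2) (by decide)))
        ((hm 0).trans (hm 2).symm)
    have h4 := sum_le_card_nsmul univ _ 5 fun a _ => h2 a
    have h5 := sum_le_card_nsmul univ _ 2 fun x _ => h3 x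
    simp only [card_univ, Fintype.card_fin, smul_eq_mul] at h1 h4 h5
    omega
  · have hesc : ∀ {q : ℕ}, q < 3 * b + d → ∀ (c : Fin q → V) (r : V), (∀ i, c i ≠ r) →
        ∃ r', (∀ i, H r' (c i)) ∧ ¬ H r' r := by
      intro q hq c r hr
      have hc : (univ.image c).card ≤ q := card_image_le.trans (by simp)
      obtain ⟨j, j1, j2⟩ := exists_free π (univ.image c) (by omega)
      obtain ⟨r', -, a1, a2⟩ := hext j (univ.image c) r (by omega) j2 j1 (by simpa using hr)
      exact ⟨r', fun i => a1 _ (mem_image_of_mem _ (mem_univ _)), a2⟩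
    have hlose : ∀ {q : ℕ}, q < 3 * b + d → ∀ (t : ℕ) (c : Fin q → V) (r : V),
        (∀ i, H r (c i)) → ¬ CopsCatchWithin G q t c r := by
      intro q hq t
      induction t with
      | zero =>
        rintro c r h ⟨i, e⟩
        exact hne _ _ (h i) (by rw [e])
      | succ t ih =>
        rintro c r h (⟨i, e⟩ | ⟨c', hc', hw⟩)
        · exact hne _ _ (h i) (by rw [e])
        · have hr : ∀ i, c' i ≠ r := by
            intro i e
            rcases hc' i with e' | e'
            · exact hne _ _ (h i) (by rw [e', e])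
            · rw [e] at e'
              exact e'.2 (hsym _ _ (h i))
          rcases hw with ⟨i, e⟩ | hw
          · exact hr i e
          · obtain ⟨r', a1, a2⟩ := hesc hq c' r hr
            exact ih c' r' a1 (hw r' (hstep _ _ fun h' => a2 (hsym _ _ h')))
    have hwin : CopsWin G (Fintype.card V) :=
      ⟨(Fintype.equivFin V).symm, fun r => ⟨0, (Fintype.equivFin V) r, by simp⟩⟩
    refine le_csInf ⟨_, hwin⟩ fun q hq => ?_
    by_contra hlt
    push Not at hlt
    obtain ⟨c, hc⟩ := hq
    have hc' : (univ.image c).card ≤ q := card_image_le.trans (by simp)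
    obtain ⟨j, j1, -⟩ := exists_free π (univ.image c) (by omega)
    obtain ⟨r, hr⟩ := hπ j
    obtain ⟨r', a1, -⟩ := hesc hlt c r fun i e => j1 _ (mem_image_of_mem _ (mem_univ i)) (e ▸ hr)
    obtain ⟨t, ht⟩ := hc r'
    exact hlose hlt t c r' a1 ht

end Pool.Agent.MP_dfa28f_co
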